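import Mathlib
import Pool.Agent.H.MP_671a46_co.Main

set_option autoImplicit false

namespace Pool.Agent.Results.MP_671a46_co.Yes

open Pool.Agent.H.MP_671a46_co

theorem result (c k : ℕ) (hk : 0 < k) (hc : k < c) :
    ∃ (W : Type) (_ : Finite W) (H : SimpleGraph W), H.Connected ∧ (∃ a b, H.Adj a b) ∧
      IsLeast {n | CopsWin (fun u v => H.Adj u v ∨ u = v) n} c ∧
      IsLeast {n | CopsWin H.Adj n} (c + k) := by
  obtain ⟨m, hm⟩ : ∃ m, (c + k) / 2 = m + 1 := ⟨(c + k) / 2 - 1, by omega⟩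
  obtain ⟨t, ht⟩ : ∃ t, c + k = m + 1 + t := ⟨c + k - (m + 1), by omega⟩
  obtain ⟨g, rfl⟩ : ∃ g, c = m + 1 + (g + 1) := ⟨c - (m + 2), by omega⟩
  let grp : Fin t → Fin (g + 1) := fun j => ⟨min j g, by omega⟩
  have hs : Function.Surjective grp := fun l =>
    ⟨⟨l, by omega⟩, Fin.ext (by simp only [grp]; omega)⟩
  have j0 : Fin t := ⟨0, by omega⟩
  refine ⟨V m t (g + 1) (m + 1 + t), inferInstance, G grp, conn hs, ⟨_, has_nb hs (.v 0)⟩,
    ⟨⟨_, fun r => (pasUp j0 r).reindex _ finSumFinEquiv.symm.surjective⟩, ?_⟩,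
    ⟨?_, ?_⟩⟩
  · rintro n ⟨f, hf⟩
    by_contra hn
    obtain ⟨u, hu⟩ := pasLow hs j0 (by simp; omega) (by simp; omega) f
    exact hu (hf u)
  · rw [ht]
    exact ⟨_, fun r => (actUp hs (by omega) r).reindex _ finSumFinEquiv.symm.surjective⟩
  · rintro n ⟨f, hf⟩
    by_contra hn
    obtain ⟨u, hu⟩ := actLow hs j0 (by simp; omega) (by simp; omega) (by omega) f
    exact hu (hf u)

end Pool.Agent.Results.MP_671a46_co.Yes
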